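import Mathlib
import Pool.Agent.TH922.C8_DAT
import Pool.Agent.TH551.C8_XM1
import Pool.Agent.TH921.FL_GK
import Pool.Agent.Q42.KM.OfModel

/-!
# A projective gklt threefold pair with pseudo-effective adjoint class and without log terminal model

The pair `(X, β)` consists of a normal projective (hence compact Kähler) threefold `X`, the boundary
`B = 0` and a nef b-class `β`; it is gklt and `K_X + β_X` is pseudo-effective. It has no weak log
canonical model, hence no log terminal model, among all compact normal complex spaces bimeromorphic
to `X`: these are Moishezon spaces, that is (Artin), normal proper algebraic spaces, and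
`AlgSpace K` describes all normal proper algebraic spaces with function field `K` by their atlases.
(The projective varieties are a special case, see `Pool.Agent.Q42.KM.ofModel`.)

How a log terminal model `X ⇢ Y` in the sense of the problem gives `Y : AlgSpace K` and `E` with
`IsWeakLCSpace T X B β D Y E`: the atlas is an étale atlas of the algebraic space `Y`; since `Y` is
strongly `ℚ`-factorial the Weil `ℝ`-divisor `K_Y + B + β_Y` is `ℝ`-Cartier, and `E` is the b-divisor
of its pull-backs; the pull-back of a nef class to a projective resolution `W` of `Y` is nef; and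
`a(P, X) < a(P, Y)` says `E w < D w` for the valuation `w` of `P`.
-/

set_option autoImplicit false

namespace Pool.Agent.Results.MP_c8c12f_ag.NoLogTerminalModel

open Pool.Agent.H436R3.Fol Pool.Agent.TH202 Pool.Agent.Q42.KM

/-- **There is a projective threefold gklt pair with pseudo-effective adjoint class which has no
weak log canonical model** (in particular no log terminal model) **among all normal proper algebraic
spaces.** Here `T` is a basis of the rational vector fields of the function field `K` of `X`, and
`D` is the b-divisor of the pull-backs of the `ℝ`-Cartier divisor `K_X + β_X`. -/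
theorem result : ∃ (K : Type) (_ : Field K) (_ : Algebra ℂ K) (_ : Algebra.EssFiniteType ℂ K)
    (T : Foliation K 3) (_ : T.space = ⊤) (X : Model K) (β D : DVal K → ℝ),
    IsGklt T X 0 β D ∧ IsPsef X D ∧
    ∀ (Y : AlgSpace K) (E : DVal K → ℝ), ¬ IsWeakLCSpace T X 0 β D Y E := by
  obtain ⟨K, iF, iA, iE, ⟨d⟩⟩ := Pool.Agent.TH922.C8_DAT.exists_dat
  obtain ⟨T, hT, hTs⟩ := Pool.Agent.TH922.C8_DAT.exists_fol d
  have h := Pool.Agent.TH551.C8_XM1.xi_alg d
  obtain ⟨s, hfil, -, -⟩ := exists_sq2 d
  exact ⟨K, iF, iA, iE, T, hTs, M3 s 3 (by norm_num), bt s, Dn s 3,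
    Pool.Agent.TH921.FL_GK.gk h s hfil T hT 3 (by norm_num),
    Pool.Agent.Y131.IF.psef_Dn h s hfil 3 (by norm_num),
    fun Y E => no_lc_space h s hfil T hT 3 (by norm_num) Y E⟩

end Pool.Agent.Results.MP_c8c12f_ag.NoLogTerminalModel
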